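import Pool.Agent.Run7.h105.PC.Defs

set_option autoImplicit false

open Filter Topology Set MeasureTheory
open scoped ENNReal

namespace Pool.Agent.Run7.h181.PC

open Pool.Agent.Run7.h105.PC

theorem t_LOWK : S_SC → S_LOWC → S_LOWK := by
  intro hSC hLC s hs K hK m r k hm hr hk X hX
  obtain ⟨Y, hY, hc⟩ := hLC s hs K hK m r k hm hr hk X hX
  have hm' : (0 : ℝ) < m := by exact_mod_cast hm
  have hr' : (0 : ℝ) < r := by exact_mod_cast hr
  have hk' : (0 : ℝ) < k := by exact_mod_cast hk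
  set ρ : ℝ := (m : ℝ) * k * r / (r + 1) with hρ
  set δ : ℝ := (1 + 1 / (r : ℝ)) * (1 / ((m : ℝ) * k)) with hδ
  have hρ0 : 0 < ρ := by positivity
  have hδ0 : 0 < δ := by positivity
  have hρδ : ρ * δ = 1 := by
    rw [hρ, hδ]
    field_simp
  have hn : ((m * k * r / (r + 1) : ℕ) : ℝ) ≤ ρ := by
    rw [hρ]
    have h := Nat.cast_div_le (α := ℝ) (m := m * k * r) (n := r + 1)
    push_cast at h
    exact_mod_cast h
  have hcov : Cov s 1 (Icc 0 ((m * k * r / (r + 1) : ℕ) : ℝ)) (Y.map fun x => 0 + ρ * x) := by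
    intro y hy
    have h := hSC s 0 ρ δ hs hρ0 hδ0 (Icc 0 1) Y hY y
      ⟨by rw [sub_zero]; exact div_nonneg hy.1 hρ0.le, by
        rw [sub_zero, div_le_one hρ0]
        exact hy.2.trans hn⟩
    rw [hρδ] at h
    exact h
  have h1 := G_le hcov
  rw [Multiset.card_map] at h1
  exact h1.trans hc

end Pool.Agent.Run7.h181.PC
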